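import Pool.Agent.Lib_helper63.JO.Defs2
import Pool.Agent.Lib_helper63.JOE.ROW
import Pool.Agent.Lib_helper63.JOE.CRD
import Pool.Agent.Lib_helper63.JOE.FAM
import Pool.Agent.Lib_helper63.JOE.FTM
import Pool.Agent.Lib_helper63.JOE.CN1
import Pool.Agent.Lib_helper63.JOE.CN2
import Pool.Agent.Lib_helper63.JOE.COS
import Pool.Agent.Lib_helper63.JOE.POL
import Pool.Agent.Lib_helper63.JOE.UNL
import Pool.Agent.Lib_helper63.JOE.UN1
import Pool.Agent.Lib_helper63.JOE.MFE
import Pool.Agent.Lib_helper63.JOE.UNI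
import Pool.Agent.Lib_helper63.JOE.CF1
import Pool.Agent.Lib_helper63.JOE.CF2
import Pool.Agent.Lib_helper63.JOE.HI1
import Pool.Agent.Lib_helper63.JOE.HI2
import Pool.Agent.Lib_helper63.JOE.HI3

/-! Jutila (MP_f4574f_nt), part E: all theorems of this part are proved in the imported files. -/
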