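import Pool.Agent.Lib_helper63.JO.Defs2
import Pool.Agent.Lib_helper63.JO.WA
import Pool.Agent.Lib_helper63.JOE.HT1
import Pool.Agent.Lib_helper63.JOE.HT2
import Pool.Agent.Lib_helper63.JOE.POI
import Pool.Agent.Lib_helper63.JOE.MUL
import Pool.Agent.Lib_helper63.JOE.ZB1
import Pool.Agent.Lib_helper63.JOE.ZB2
import Pool.Agent.Lib_helper63.JOE.CTH
import Pool.Agent.Lib_helper63.JOE.ALG

/-! Jutila (MP_f4574f_nt), part E: all theorems of this part are proved in the imported files. -/
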