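import Pool.Agent.Lib_helper63.JO.Defs2
import Pool.Agent.Lib_helper63.JO.WT
import Pool.Agent.Lib_helper63.JOE.BB1
import Pool.Agent.Lib_helper63.JOE.BB2
import Pool.Agent.Lib_helper63.JOE.MPL
import Pool.Agent.Lib_helper63.JOE.LRA
import Pool.Agent.Lib_helper63.JOE.MOE
import Pool.Agent.Lib_helper63.JOE.CHP
import Pool.Agent.Lib_helper63.JOE.APX
import Pool.Agent.Lib_helper63.JOE.DEN

/-! Jutila (MP_f4574f_nt), part E: all theorems of this part are proved in the imported files. -/
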