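import Pool.Agent.Lib_helper63.JO.Defs2
import Pool.Agent.Lib_helper63.JO.WM
import Pool.Agent.Lib_helper63.JOE.BOR
import Pool.Agent.Lib_helper63.JOE.FAT
import Pool.Agent.Lib_helper63.JOE.E1
import Pool.Agent.Lib_helper63.JOE.E2
import Pool.Agent.Lib_helper63.JOE.E3
import Pool.Agent.Lib_helper63.JOE.RA1
import Pool.Agent.Lib_helper63.JOE.RA2
import Pool.Agent.Lib_helper63.JOE.HEC

/-! Jutila (MP_f4574f_nt), part E: all theorems of this part are proved in the imported files. -/
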