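import Mathlib

/-!
# Jutila's question (MP_f4574f_nt): common definitions for all parts

`G = SL₂(ℝ)` with coordinates `g = gg z a = n(x) a(y) k(a)`, the finite group `QN N = SL₂(ℤ/N)`,
families `F : QN N → SL₂(ℝ) → ℂ` with `F (γ s) (γ g) = F s g`, row vectors of `ℤ²` acting on both.
-/

namespace Pool.Agent.JO

open Complex MeasureTheory Filter Topology UpperHalfPlane ModularGroup
open scoped MatrixGroups Modular ENNReal ComplexConjugate ContDiff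

/-! ## The group and the families -/

/-- the finite group `SL₂(ℤ/N)` -/
abbrev QN (N : ℕ) : Type := SL(2, ZMod N)

/-- reduction modulo `N` -/
noncomputable def red (N : ℕ) (γ : SL(2, ℤ)) : QN N :=
  Matrix.SpecialLinearGroup.map (Int.castRingHom (ZMod N)) γ

/-- the inclusion `SL₂(ℤ) → SL₂(ℝ)` -/
noncomputable def toR (γ : SL(2, ℤ)) : SL(2, ℝ) :=
  Matrix.SpecialLinearGroup.map (Int.castRingHom ℝ) γ

/-- equivariant families on `SL₂(ℝ)`: this is `L²(Γ(N)\SL₂(ℝ))` spread over the cosets -/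
def Fam {N : ℕ} (F : QN N → SL(2, ℝ) → ℂ) : Prop :=
  ∀ (γ : SL(2, ℤ)) (s : QN N) (g : SL(2, ℝ)), F (red N γ * s) (toR γ * g) = F s g

/-- equivariant families on the upper half plane -/
def FamH {N : ℕ} (f : QN N → ℍ → ℂ) : Prop :=
  ∀ (γ : SL(2, ℤ)) (s : QN N) (z : ℍ), f (red N γ * s) (γ • z) = f s z

/-- a family on `ℍ` as a (right `K`-invariant) family on `SL₂(ℝ)` -/
noncomputable def liftH {N : ℕ} (f : QN N → ℍ → ℂ) : QN N → SL(2, ℝ) → ℂ :=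
  fun s g => f s (g • UpperHalfPlane.I)

/-- `g = n(x) a(y) k(a)`, `z = x + i y`, `k(a) = (cos a, sin a; -sin a, cos a)`; then
`g • i = z` and the bottom row of `g` is `(-sin a, cos a)/√y` -/
noncomputable def gg (z : ℍ) (a : ℝ) : SL(2, ℝ) :=
  ⟨!![√z.im * Real.cos a - z.re * Real.sin a / √z.im, √z.im * Real.sin a + z.re * Real.cos a / √z.im;
      -Real.sin a / √z.im, Real.cos a / √z.im], by
    have h : (0 : ℝ) < √z.im := Real.sqrt_pos.2 z.im_pos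
    rw [Matrix.det_fin_two_of]
    field_simp
    nlinarith [Real.sin_sq_add_cos_sq a]⟩

open scoped Classical in
/-- `n(t) g_x`: a matrix with bottom row `x = (Re x, Im x)` -/
noncomputable def gx (x : ℂ) (t : ℝ) : SL(2, ℝ) :=
  if hx : x = 0 then 1 else
  ⟨!![x.im / Complex.normSq x + t * x.re, -x.re / Complex.normSq x + t * x.im; x.re, x.im], by
    have h : Complex.normSq x ≠ 0 := by
      rwa [Ne, Complex.normSq_eq_zero]
    rw [Matrix.det_fin_two_of]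
    have h2 : Complex.normSq x = x.re * x.re + x.im * x.im := Complex.normSq_apply x
    field_simp
    rw [h2]
    ring⟩

/-- the row vector `v g`, as the complex number `(v g)₁ + i (v g)₂`; for `g = gg z a` it is
`i e^{ia} conj(c z + d)/√y`, `v = (c, d)` -/
noncomputable def rg (v : ℤ × ℤ) (g : SL(2, ℝ)) : ℂ :=
  ((v.1 * g 0 0 + v.2 * g 1 0 : ℝ) : ℂ) + ((v.1 * g 0 1 + v.2 * g 1 1 : ℝ) : ℂ) * Complex.I

/-- the row vector `v s` modulo `N` -/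
def rs {N : ℕ} (v : ℤ × ℤ) (s : QN N) : ZMod N × ZMod N :=
  ((v.1 : ZMod N) * s 0 0 + (v.2 : ZMod N) * s 1 0, (v.1 : ZMod N) * s 0 1 + (v.2 : ZMod N) * s 1 1)

/-- the bottom row of `s` -/
def bot {N : ℕ} (s : QN N) : ZMod N × ZMod N := (s 1 0, s 1 1)

/-! ## Norms -/

/-- measure on `𝒟 × (0, 2π)`: coordinates `(z, a)` of `SL₂(ℤ)\SL₂(ℝ)` (up to `±1`) -/
noncomputable def muG : Measure (ℍ × ℝ) :=
  (volume.restrict (𝒟ᵒ : Set ℍ)).prod (volume.restrict (Set.Ioc 0 (2 * Real.pi)))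

/-- measurable families -/
def MF {N : ℕ} (F : QN N → SL(2, ℝ) → ℂ) : Prop :=
  Fam F ∧ ∀ s, Measurable (fun p : ℍ × ℝ => F s (gg p.1 p.2))

/-- square integrable families -/
structure SqF {N : ℕ} [NeZero N] (F : QN N → SL(2, ℝ) → ℂ) : Prop where
  mf : MF F
  sq : ∀ s, Integrable (fun p : ℍ × ℝ => ‖F s (gg p.1 p.2)‖ ^ 2) muG

/-- the inner product of families -/
noncomputable def ip {N : ℕ} [NeZero N] (F G : QN N → SL(2, ℝ) → ℂ) : ℂ :=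
  ∑ s : QN N, ∫ p : ℍ × ℝ, F s (gg p.1 p.2) * conj (G s (gg p.1 p.2)) ∂muG

/-- the mean value -/
noncomputable def mean {N : ℕ} [NeZero N] (F : QN N → SL(2, ℝ) → ℂ) : ℂ :=
  ip F (fun _ _ => 1) / ip (N := N) (fun _ _ => 1) (fun _ _ => 1)

/-! ## Functions of rows: the space `L²(ℝ² × primitive rows mod N)` -/

/-- primitive rows modulo `N` -/
noncomputable def PV (N : ℕ) [NeZero N] : Finset (ZMod N × ZMod N) :=
  Finset.univ.image (fun s : QN N => bot s)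

/-- the inner product, normalised so that `⟨F, E α⟩ = ⟨CF F, α⟩` -/
noncomputable def ipL {N : ℕ} [NeZero N] (c₁ c₂ : ℂ → ZMod N × ZMod N → ℂ) : ℂ :=
  2 * N * ∑ v ∈ PV N, ∫ x : ℂ, c₁ x v * conj (c₂ x v)

/-- the square of the norm -/
noncomputable def nL {N : ℕ} [NeZero N] (c : ℂ → ZMod N × ZMod N → ℂ) : ℝ :=
  2 * N * ∑ v ∈ PV N, ∫ x : ℂ, ‖c x v‖ ^ 2

/-- square integrable functions of rows -/
structure SqL {N : ℕ} [NeZero N] (c : ℂ → ZMod N × ZMod N → ℂ) : Prop where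
  meas : ∀ v, Measurable (fun x => c x v)
  sq : ∀ v ∈ PV N, Integrable (fun x => ‖c x v‖ ^ 2)

/-- integrable functions of rows -/
structure InL {N : ℕ} [NeZero N] (c : ℂ → ZMod N × ZMod N → ℂ) : Prop where
  meas : ∀ v, Measurable (fun x => c x v)
  int : ∀ v ∈ PV N, Integrable (fun x => c x v)

/-- even functions of rows -/
def Evn {N : ℕ} (c : ℂ → ZMod N × ZMod N → ℂ) : Prop := ∀ x v, c (-x) (-v) = c x v

/-- the constant term: at `x = i e^{ia}/√y` and `v` it is the average of `F s (n(t) a(y) k(a))` over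
`0 < t < 1` and the `N` elements `s` with bottom row `v` -/
noncomputable def CF {N : ℕ} [NeZero N] (F : QN N → SL(2, ℝ) → ℂ) (x : ℂ) (v : ZMod N × ZMod N) :
    ℂ :=
  (N : ℂ)⁻¹ * ∑ s : QN N, if bot s = v then ∫ t in (0 : ℝ)..1, F s (gx x t) else 0

open scoped Classical in
/-- the incomplete Eisenstein series: half the sum over the primitive rows `p ∈ ℤ²` of
`α(p g; p s)` -/
noncomputable def EE {N : ℕ} (α : ℂ → ZMod N × ZMod N → ℂ) (s : QN N) (g : SL(2, ℝ)) : ℂ :=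
  (1 / 2) * ∑' p : ℤ × ℤ, if IsCoprime p.1 p.2 then α (rg p g) (rs p s) else 0

/-! ## Theta series -/

/-- the theta series of `w` -/
noncomputable def Th {N : ℕ} (w : ℂ → ZMod N × ZMod N → ℂ) (s : QN N) (g : SL(2, ℝ)) : ℂ :=
  ∑' v : ℤ × ℤ, w (rg v g) (rs v s)

/-- the test functions: smooth, compact support in `ℂ \ 0`, radial integrals zero -/
structure TW {N : ℕ} (w : ℂ → ZMod N × ZMod N → ℂ) : Prop where
  smooth : ∀ v, ContDiff ℝ ∞ (fun x => w x v)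
  supp : ∃ r R : ℝ, 0 < r ∧ ∀ x v, w x v ≠ 0 → r ≤ ‖x‖ ∧ ‖x‖ ≤ R
  rad : ∀ (e : ℂ) (v), ‖e‖ = 1 → ∫ ρ in Set.Ioi (0 : ℝ), w (ρ * e) v = 0

/-- the symplectic form modulo `N` -/
def sy {N : ℕ} (u v : ZMod N × ZMod N) : ZMod N := u.1 * v.2 - u.2 * v.1

/-- the symplectic Fourier transform in both variables,
`ŵ(η; u) = N⁻² ∑_v e(⟨v,u⟩/N) ∫ w(ξ; v) e(-⟨ξ,η⟩/N) dξ`, `⟨ξ,η⟩ = Im(conj ξ · η)` -/
noncomputable def hat {N : ℕ} [NeZero N] (w : ℂ → ZMod N × ZMod N → ℂ) (η : ℂ)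
    (u : ZMod N × ZMod N) : ℂ :=
  ((N : ℂ) ^ 2)⁻¹ * ∑ v : ZMod N × ZMod N, (ZMod.stdAddChar (sy v u) : ℂ) *
    ∫ ξ : ℂ, w ξ v * cexp (-(2 * Real.pi * (conj ξ * η).im / N : ℝ) * Complex.I)

/-- `Z(w)(x; v) = ∑_{m ≠ 0} w(m x; m v)` -/
noncomputable def ZZ {N : ℕ} (w : ℂ → ZMod N × ZMod N → ℂ) (x : ℂ) (v : ZMod N × ZMod N) : ℂ :=
  ∑' m : ℤ, if m = 0 then 0 else w (m * x) (m * v.1, m * v.2)

/-- dilation by a natural number, `(D_n α)(x; v) = α(n x; n v)` -/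
def dil {N : ℕ} (n : ℕ) (α : ℂ → ZMod N × ZMod N → ℂ) (x : ℂ) (v : ZMod N × ZMod N) : ℂ :=
  α (n * x) (n * v.1, n * v.2)

/-! ## Hecke operators -/

/-- representatives of `SL₂(ℤ)\{det = n}`: `(a, b, d)` for `(a b; 0 d)`, `a d = n`, `0 ≤ b < d` -/
def HM (n : ℕ) : Finset (ℕ × ℕ × ℕ) :=
  (Finset.range (n + 1) ×ˢ Finset.range (n + 1) ×ˢ Finset.range (n + 1)).filter
    (fun t => t.1 * t.2.2 = n ∧ t.2.1 < t.2.2)

/-- `(a b; 0 d)/m` in `SL₂(ℝ)` for `a d = m²` -/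
noncomputable def hR (m : ℕ) (t : ℕ × ℕ × ℕ) : SL(2, ℝ) :=
  if h : (t.1 : ℝ) * t.2.2 = (m : ℝ) ^ 2 ∧ m ≠ 0 then
    ⟨!![(t.1 : ℝ) / m, (t.2.1 : ℝ) / m; 0, (t.2.2 : ℝ) / m], by
      have hm : (m : ℝ) ≠ 0 := Nat.cast_ne_zero.2 h.2
      rw [Matrix.det_fin_two_of]
      field_simp
      nlinarith [h.1]⟩
  else 1

/-- `(a b; 0 d)/m` in `SL₂(ℤ/N)` for `a d = m²`, `m` prime to `N` -/
noncomputable def hQ (N m : ℕ) (t : ℕ × ℕ × ℕ) : QN N :=
  if h : (m : ZMod N) * (m : ZMod N)⁻¹ = 1 ∧ t.1 * t.2.2 = m ^ 2 then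
    ⟨!![(t.1 : ZMod N) * (m : ZMod N)⁻¹, (t.2.1 : ZMod N) * (m : ZMod N)⁻¹;
        0, (t.2.2 : ZMod N) * (m : ZMod N)⁻¹], by
      rw [Matrix.det_fin_two_of]
      have h2 : (t.1 : ZMod N) * (t.2.2 : ZMod N) = (m : ZMod N) ^ 2 := by
        exact_mod_cast congrArg (Nat.cast : ℕ → ZMod N) h.2
      calc (t.1 : ZMod N) * (m : ZMod N)⁻¹ * ((t.2.2 : ZMod N) * (m : ZMod N)⁻¹) -
            (t.2.1 : ZMod N) * (m : ZMod N)⁻¹ * 0
          = ((t.1 : ZMod N) * t.2.2) * (m : ZMod N)⁻¹ ^ 2 := by ring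
        _ = ((m : ZMod N) * (m : ZMod N)⁻¹) ^ 2 := by rw [h2]; ring
        _ = 1 := by rw [h.1]; ring⟩
  else 1

/-- the Hecke operator `T_{m²}`:
`(T F)_s(g) = m⁻¹ ∑_{ad = m², b mod d} F_{(δ/m) s}((δ/m) g)`, `δ = (a b; 0 d)` -/
noncomputable def Tm {N : ℕ} (m : ℕ) (F : QN N → SL(2, ℝ) → ℂ) (s : QN N) (g : SL(2, ℝ)) : ℂ :=
  (m : ℂ)⁻¹ * ∑ t ∈ HM (m ^ 2), F (hQ N m t * s) (hR m t * g)

/-! ## Rays -/

/-- the integral of a function over the ray `{r e^{iθ}}` -/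
noncomputable def ray (f : ℍ → ℂ) (θ : ℝ) : ℂ :=
  ∫ r in Set.Ioi (0 : ℝ), f (UpperHalfPlane.ofComplex (r * cexp (θ * Complex.I))) / r

/-- the family dual to `α` on the ray functional of the component `s = 1` -/
noncomputable def PiA (N : ℕ) (α : ℝ → ℂ) (s : QN N) (z : ℍ) : ℂ :=
  (1 / (4 * Real.pi)) * ∑' γ : SL(2, ℤ), if red N γ * s = 1 then
    ((Real.sin (Complex.arg (γ • z : ℍ)) ^ 2 : ℝ) : ℂ) * α (Complex.arg (γ • z : ℍ)) else 0

end Pool.Agent.JO
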