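import Pool.Agent.Lib_helper63.JO.Defs

/-!
# Part E: further definitions
-/

namespace Pool.Agent.JO

open Complex MeasureTheory Filter Topology UpperHalfPlane ModularGroup
open scoped MatrixGroups Modular ENNReal ComplexConjugate ContDiff

variable {N : ℕ}

/-- the mean zero family attached to a function of rows -/
noncomputable def T0 [NeZero N] (α : ℂ → ZMod N × ZMod N → ℂ) (s : QN N) (g : SL(2, ℝ)) : ℂ :=
  EE α s g - mean (EE α)

/-- one-dimensional test functions -/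
structure TA (A : ℝ → ℂ) : Prop where
  smooth : ContDiff ℝ ∞ A
  supp : ∃ r R : ℝ, 0 < r ∧ ∀ x, A x ≠ 0 → r ≤ x ∧ x ≤ R
  int : ∫ x in Set.Ioi (0 : ℝ), A x = 0

/-- `∑_n χ(n) A(n ρ)` -/
noncomputable def BB [NeZero N] (χ : DirichletCharacter ℂ N) (A : ℝ → ℂ) (ρ : ℝ) : ℂ :=
  ∑' n : ℕ, if n = 0 then 0 else χ n * A (n * ρ)

/-- uniform families of test functions -/
structure TAF {ι : Type} (A : ι → ℝ → ℂ) : Prop where
  ta : ∀ i, TA (A i)
  supp : ∃ r R : ℝ, 0 < r ∧ ∀ i x, A i x ≠ 0 → r ≤ x ∧ x ≤ R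
  der : ∀ n : ℕ, ∃ C : ℝ, ∀ i x, ‖iteratedDeriv n (A i) x‖ ≤ C

/-- the truncated Moebius coefficients -/
noncomputable def bM (N : ℕ) (δ : ℝ) (M k : ℕ) : ℝ :=
  ∑ m ∈ (Finset.Icc 1 M).filter (fun m => m ∣ k ∧ m.Coprime N),
    (ArithmeticFunction.moebius m : ℝ) * (m : ℝ) ^ (-δ)

/-- square integrable families on the upper half plane -/
structure SqH {N : ℕ} [NeZero N] (f : QN N → ℍ → ℂ) : Prop where
  fam : FamH f
  meas : ∀ s, Measurable (f s)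
  sq : ∀ s, IntegrableOn (fun z => ‖f s z‖ ^ 2) (𝒟ᵒ : Set ℍ)

/-- the inner product -/
noncomputable def ipH {N : ℕ} [NeZero N] (f f' : QN N → ℍ → ℂ) : ℂ :=
  ∑ s : QN N, ∫ z in (𝒟ᵒ : Set ℍ), f s z * conj (f' s z)

/-- the mean value -/
noncomputable def meanH {N : ℕ} [NeZero N] (f : QN N → ℍ → ℂ) : ℂ :=
  ipH f (fun _ _ => 1) / ipH (N := N) (fun _ _ => 1) (fun _ _ => 1)

/-- the constant terms -/
noncomputable def cH {N : ℕ} [NeZero N] (f : QN N → ℍ → ℂ) (v : ZMod N × ZMod N) (y : ℝ) : ℂ :=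
  (N : ℂ)⁻¹ * ∑ s : QN N, if bot s = v then
    ∫ t in (0 : ℝ)..1, f s (UpperHalfPlane.ofComplex (t + y * Complex.I)) else 0

end Pool.Agent.JO
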